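import Pool.Agent.H8.IllumProof

set_option autoImplicit false

namespace Pool.Agent.Results.MP_22e672_co.Cube

open Pool.Agent.H8.Illum

/-- For `1 ≤ i ≤ d - 3` some `d`-polytope needs more than `2 ^ (d - 1 - i)` sources. -/
theorem result (d i : ℕ) (hi : 1 ≤ i) (hd : i + 3 ≤ d) :
    ∃ P : Set (EuclideanSpace ℝ (Fin d)), IsPolytope P ∧
      ¬ ∃ S : Finset (EuclideanSpace ℝ (Fin d)), S.card ≤ 2 ^ (d - 1 - i) ∧
        (∀ s ∈ S, s ∉ P) ∧ ∀ b ∈ X i P, ∃ s ∈ S, Illuminates P s b :=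
  main d i hi hd

end Pool.Agent.Results.MP_22e672_co.Cube
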